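import Pool.Agent.Q153.CkUniv

/-!
The `C_k`-stable closure of the class of separable metrizable spaces has no universal space.
-/

set_option autoImplicit false

open TopologicalSpace Topology

namespace Pool.Agent.Results.MP_a55298_gt.NoUniversal

/-- The class `C[M₀]`: the spaces that embed into `C_k(X, Y)` with `X`, `Y` separable
metrizable. -/
def InClass₀ (S : Type) [TopologicalSpace S] : Prop :=
  ∃ (X Y : Type) (_ : TopologicalSpace X) (_ : TopologicalSpace Y),
    SeparableSpace X ∧ MetrizableSpace X ∧ SeparableSpace Y ∧ MetrizableSpace Y ∧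
    ∃ e : S → C(X, Y), IsEmbedding e

/-- The class `C[M]`: the spaces that embed into `C_k(X, Y)` with `X` separable metrizable and `Y`
metrizable. -/
def InClass (S : Type) [TopologicalSpace S] : Prop :=
  ∃ (X Y : Type) (_ : TopologicalSpace X) (_ : TopologicalSpace Y),
    SeparableSpace X ∧ MetrizableSpace X ∧ MetrizableSpace Y ∧ ∃ e : S → C(X, Y), IsEmbedding e

/-- For every `U` in `C[M]`, in particular for every `U` in `C[M₀]`, there is a set `Z` of reals such
that `C_k(Z)`, which belongs to `C[M₀]`, is not homeomorphic to a subspace of `U`. -/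
theorem result :
    (∀ (U : Type) [TopologicalSpace U], InClass₀ U → InClass U) ∧
    ∀ (U : Type) [TopologicalSpace U], InClass U →
      ∃ Z : Set ℝ, InClass₀ C(Z, ℝ) ∧ ∀ e : C(Z, ℝ) → U, ¬ IsEmbedding e := by
  refine ⟨?_, ?_⟩
  · rintro U _ ⟨X, Y, _, _, h1, h2, -, h3, h4⟩
    exact ⟨X, Y, _, _, h1, h2, h3, h4⟩
  · rintro U _ ⟨X, Y, _, _, _, _, _, e, he⟩
    obtain ⟨Z, hZ⟩ := Pool.Agent.Q153.CkUniv.exists_not_embeddable X
    refine ⟨Z, ⟨Z, ℝ, inferInstance, inferInstance, inferInstance, inferInstance, inferInstance,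
      inferInstance, id, IsEmbedding.id⟩, fun e' he' => ?_⟩
    exact hZ Y (e ∘ e') (he.comp he').isInducing

end Pool.Agent.Results.MP_a55298_gt.NoUniversal
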